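import Pool.Agent.helper32.EXC.Spec11

/-!
# Project EXC, row FML: the form and the coefficients of lists of roots
-/

set_option autoImplicit false

open Finset

namespace Pool.Agent.EXC

section
variable {n : ℕ} (C : Matrix (Fin n) (Fin n) ℤ) [IsC C] {F : Type} [Field F]

theorem T11FML_cons (p : (Fin n → ℤ) × ℤ) (l : List ((Fin n → ℤ) × ℤ)) :
    (ls C (p :: l) : Lm C F) = (p.2 : F) • (E C p.1 : Lm C F) + ls C l := by
  unfold ls
  rw [List.map_cons, List.sum_cons]

theorem T11FML_nil : (ls C [] : Lm C F) = 0 := by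
  unfold ls
  rw [List.map_nil, List.sum_nil]

theorem T11FML_one (p : (Fin n → ℤ) × ℤ) (hp : ip C p.1 p.1 = 2) : ∀ l' : List ((Fin n → ℤ) × ℤ), (∀ q ∈ l', ip C q.1 q.1 = 2) →
    fm C ((p.2 : F) • (E C p.1 : Lm C F)) (ls C l') =
      (((l'.map fun q => if q.1 = -p.1 then p.2 * q.2 else 0).sum : ℤ) : F)
  | [], _ => by
    rw [T11FML_nil, fm_zero_right, List.map_nil, List.sum_nil, Int.cast_zero]
  | q :: l', h => by
    rw [T11FML_cons, fm_add_right, T11FML_one p hp l' fun x hx => h x (List.mem_cons_of_mem _ hx), List.map_cons, List.sum_cons,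
      Int.cast_add]
    congr 1
    rw [fm_smul_left, fm_smul_right, fm_E_E C hp (h q List.mem_cons_self)]
    by_cases h1 : q.1 = -p.1
    · rw [if_pos h1, if_pos h1, mul_one, Int.cast_mul]
    · rw [if_neg h1, if_neg h1, mul_zero, mul_zero, Int.cast_zero]

theorem T11FML_fm (l' : List ((Fin n → ℤ) × ℤ)) (hl' : ∀ q ∈ l', ip C q.1 q.1 = 2) : ∀ l : List ((Fin n → ℤ) × ℤ),
    (∀ p ∈ l, ip C p.1 p.1 = 2) → fm C (ls C l) (ls C l' : Lm C F) = (fml l l' : F)
  | [], _ => by
    unfold fml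
    rw [T11FML_nil, fm_zero_left, List.map_nil, List.sum_nil, Int.cast_zero]
  | p :: l, h => by
    have ih := T11FML_fm l' hl' l fun x hx => h x (List.mem_cons_of_mem _ hx)
    unfold fml at ih ⊢
    rw [T11FML_cons, fm_add_left, ih, T11FML_one C p (h p List.mem_cons_self) l' hl', List.map_cons, List.sum_cons, Int.cast_add]

theorem T11FML_cf (γ : Fin n → ℤ) : ∀ l : List ((Fin n → ℤ) × ℤ),
    (∀ p ∈ l, ip C p.1 p.1 = 2) → cf (ls C l : Lm C F) γ = (cfl l γ : F)
  | [], _ => by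
    unfold cfl
    rw [T11FML_nil, cf_zero, List.map_nil, List.sum_nil, Int.cast_zero]
  | p :: l, h => by
    have ih := T11FML_cf γ l fun x hx => h x (List.mem_cons_of_mem _ hx)
    unfold cfl at ih ⊢
    rw [T11FML_cons, cf_add, ih, List.map_cons, List.sum_cons, Int.cast_add]
    congr 1
    rw [cf_smul, cf_E C (h p List.mem_cons_self)]
    by_cases h1 : γ = p.1
    · rw [if_pos h1, if_pos h1, mul_one]
    · rw [if_neg h1, if_neg h1, mul_zero, Int.cast_zero]

end

theorem T11FML : T11FML_stmt := fun _ C _ _ _ l l' h h' => ⟨T11FML_fm C l' h' l h, fun γ => T11FML_cf C γ l h⟩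

end Pool.Agent.EXC
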